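import Pool.Agent.Q36.QD.TriC

/-!
# Restricted quasi-diagonals in the odd powers of an elliptic curve

For every complex elliptic curve `E : y² = x³ + A x + B` with `j(E) ≠ 0` (i.e. `A ≠ 0`; in particular for
every `E` without complex multiplication) and every odd `n ≥ 3` there is a restricted quasi-diagonal
over `(E, 𝒪(e))` in `E ^ n`.

Construction: `E` has a flex with `x`-coordinate `c₀ ≠ 0`; for a suitable `c`, the curve
`Y² = (c² c₀ / 3) (z³ + 1)² + c³ z³` of genus two maps to `E` by `x = c₀ + c z / (z + 1)²`,
`y = Y / (z + 1)³`. The images `Q₀, Q₁, Q₂` of the three points `(ω ^ k z, Y)` are collinear, hence their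
sum is `0`, and `S` is the curve of the points `(Q₀, Q₁, Q₂, Q₀, -Q₀, Q₀, -Q₀, …)`.
-/

namespace Pool.Agent.Results.MP_9fbe61_ag.OddPowers

open Q36.QD

/-- For every elliptic curve `E : y² = x³ + A x + B` over `ℂ` with `A ≠ 0`, i.e. `j(E) ≠ 0` (all elliptic
curves without complex multiplication are among these), and every odd `n ≥ 3`, there is an irreducible
reduced curve `S ⊂ E ^ n`, with function field `K` and generic point `P`, which is a quasi-diagonal
over `(E, 𝒪(e))`, where `e` is the origin, and which is restricted: the summation map is constant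
on `S`. -/
theorem result {A B : ℂ} (hD : 4 * A ^ 3 + 27 * B ^ 2 ≠ 0) (hA : A ≠ 0) {n : ℕ} (hn : Odd n)
    (h3 : 3 ≤ n) :
    ∃ (K : Type) (_ : Field K) (_ : Algebra ℂ K) (P : Fin n → EK A B K),
      IsQuasiDiagonal (Finsupp.single 0 1) P ∧ SumConst P :=
  exists_odd hD hA hn h3

end Pool.Agent.Results.MP_9fbe61_ag.OddPowers
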